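import Pool.Agent.Helper54.S4.Stmts

namespace Pool.Agent.Helper54.S4

open Finset Pool.Agent.Helper54.SP Pool.Agent.Helper54.Poly

/-- the slack part of the level -/
def lv4_sl (Γ : List Gt) (p : ℕ) : ℕ :=
  if pu (gr p - 1) (la p) then 2 * Γ.length + rn Γ (gr p - 1)
      else 2 * Γ.length - 1 - rn Γ (gr p - 1)

theorem lv4_eq (Γ : List Gt) (nw p : ℕ) (hp : 3 ≤ p) :
    lv Γ nw p = 1 + wi Γ nw (gr p - 1) (la p) * (4 * Γ.length) + lv4_sl Γ p := by
  unfold lv lv4_sl
  rw [if_neg (by omega), if_neg (by omega)]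

theorem lv4_mono (f : ℕ → ℕ) (h : ∀ i, i < 5 → f i < f (i + 1)) (a b : ℕ) (hab : a < b)
    (hb : b < 6) : f a < f b := by
  obtain ⟨k, rfl⟩ : ∃ k, b = a + 1 + k := ⟨b - (a + 1), by omega⟩
  clear hab
  induction k with
  | zero => exact h a (by omega)
  | succ k ih =>
    have h1 := ih (by omega)
    have h2 := h (a + 1 + k) (by omega)
    have h3 : a + 1 + (k + 1) = a + 1 + k + 1 := by omega
    rw [h3]
    exact h1.trans h2

theorem st_LV4 (hPT : ST_PT4) (hWI : ST_WI4) : ST_LV4 := by
  intro Γ nw hwf
  obtain ⟨p1, p2, p3, p4, p5, p6, p7⟩ := hPT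
  have hj : ∀ p, 3 ≤ p → p < N4 Γ → gr p - 1 < 4 * Γ.length := fun p h h' => (p3 Γ p h).1 h'
  have hla : ∀ p, 3 ≤ p → la p < 6 := fun p h => (p2 p h).2.1
  have hwm : ∀ p, 3 ≤ p → p < N4 Γ → ∀ a b, a < b → b < 6 →
      wi Γ nw (gr p - 1) a < wi Γ nw (gr p - 1) b := by
    intro p h h' a b hab hb
    exact lv4_mono _ (hWI Γ nw hwf _ (hj p h h')).1 a b hab hb
  have hw : ∀ p, 3 ≤ p → p < N4 Γ →
      wi Γ nw (gr p - 1) (la p) < 2 * Γ.length + 3 + nw := by
    intro p h h'
    have h5 := (hWI Γ nw hwf _ (hj p h h')).2.1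
    rcases Nat.lt_or_ge (la p) 5 with hl | hl
    · exact (hwm p h h' (la p) 5 hl (by omega)).trans h5
    · have h6 := hla p h
      have h7 : la p = 5 := by omega
      rw [h7]
      exact h5
  have hrn : ∀ p, 3 ≤ p → p < N4 Γ → rn Γ (gr p - 1) < 2 * Γ.length := fun p h h' =>
    (hWI Γ nw hwf _ (hj p h h')).2.2.1
  have hsl : ∀ p, 3 ≤ p → p < N4 Γ → lv4_sl Γ p < 4 * Γ.length := by
    intro p h h'
    have h1 := hrn p h h'
    unfold lv4_sl
    split_ifs <;> omega
  have hlt : ∀ p q, 3 ≤ p → 3 ≤ q → p < N4 Γ → q < N4 Γ →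
      wi Γ nw (gr p - 1) (la p) < wi Γ nw (gr q - 1) (la q) → lv Γ nw p < lv Γ nw q := by
    intro p q hp hq hp' hq' h
    rw [lv4_eq Γ nw p hp, lv4_eq Γ nw q hq]
    have h1 := hsl p hp hp'
    have h2 : (wi Γ nw (gr p - 1) (la p) + 1) * (4 * Γ.length)
        ≤ wi Γ nw (gr q - 1) (la q) * (4 * Γ.length) := Nat.mul_le_mul_right _ h
    have h3 : (wi Γ nw (gr p - 1) (la p) + 1) * (4 * Γ.length)
      = wi Γ nw (gr p - 1) (la p) * (4 * Γ.length) + 4 * Γ.length := by ring
    omega
  have h0 : lv Γ nw 0 = 2 + (2 * Γ.length + 3 + nw) * (4 * Γ.length) := by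
    unfold lv B4
    rw [if_pos rfl]
  have h2 : lv Γ nw 2 = 0 := by
    unfold lv
    rw [if_neg (by omega), if_pos (by omega)]
  have h12 : ∀ p, p ≠ 0 → p < 3 → lv Γ nw p = 0 := by
    intro p h h'
    unfold lv
    rw [if_neg h, if_pos h']
  have hpos : ∀ p, 3 ≤ p → 0 < lv Γ nw p := by
    intro p h
    rw [lv4_eq Γ nw p h]
    omega
  have hB : ∀ p, p < N4 Γ → p ≠ 0 → lv Γ nw p < lv Γ nw 0 := by
    intro p hp hp0
    rcases Nat.lt_or_ge p 3 with h | h
    · rw [h12 p hp0 h, h0]
      omega
    · rw [lv4_eq Γ nw p h, h0]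
      have h1 := hsl p h hp
      have h4 : (wi Γ nw (gr p - 1) (la p) + 1) * (4 * Γ.length)
          ≤ (2 * Γ.length + 3 + nw) * (4 * Γ.length) := Nat.mul_le_mul_right _ (hw p h hp)
      have h5 : (wi Γ nw (gr p - 1) (la p) + 1) * (4 * Γ.length)
        = wi Γ nw (gr p - 1) (la p) * (4 * Γ.length) + 4 * Γ.length := by ring
      omega
  refine ⟨hB, fun p h _ => hpos p h, h2, ?_, ?_, hlt⟩
  · intro p q hp1 hq1 hp hq he
    rcases Nat.eq_zero_or_pos p with hp0 | hp0
    · subst hp0
      by_contra hne
      have := hB q hq (fun h => hne h.symm)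
      omega
    · rcases Nat.eq_zero_or_pos q with hq0 | hq0
      · subst hq0
        have := hB p hp (by omega)
        omega
      · rcases Nat.lt_or_ge p 3 with h | h
        · rcases Nat.lt_or_ge q 3 with h' | h'
          · omega
          · have h3 := hpos q h'
            rw [← he, h12 p (by omega) h] at h3
            omega
        · rcases Nat.lt_or_ge q 3 with h' | h'
          · have h3 := hpos p h
            rw [he, h12 q (by omega) h'] at h3
            omega
          · have hwe : wi Γ nw (gr p - 1) (la p) = wi Γ nw (gr q - 1) (la q) := by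
              rcases lt_trichotomy (wi Γ nw (gr p - 1) (la p)) (wi Γ nw (gr q - 1) (la q))
                with h3 | h3 | h3
              · have := hlt p q h h' hp hq h3
                omega
              · exact h3
              · have := hlt q p h' h hq hp h3
                omega
            have hse : lv4_sl Γ p = lv4_sl Γ q := by
              rw [lv4_eq Γ nw p h, lv4_eq Γ nw q h', hwe] at he
              omega
            have r1 := hrn p h hp
            have r2 := hrn q h' hq
            have hboth : pu (gr p - 1) (la p) = pu (gr q - 1) (la q) ∧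
                rn Γ (gr p - 1) = rn Γ (gr q - 1) := by
              unfold lv4_sl at hse
              cases hb1 : pu (gr p - 1) (la p) <;> cases hb2 : pu (gr q - 1) (la q) <;>
                simp only [hb1, hb2, if_true, if_false, Bool.false_eq_true] at hse <;>
                refine ⟨?_, by omega⟩ <;> first | rfl | omega
            obtain ⟨hpu, hre⟩ := hboth
            obtain ⟨_, _, _, _, _, _, w7, w8, _⟩ := hWI Γ nw hwf _ (hj p h hp)
            have hhalf := w7 _ (hj q h' hq) hre
            obtain ⟨hww, _, _, hpu2⟩ := w8 _ hhalf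
            have hlae : la p = la q := by
              rw [← hww (la q)] at hwe
              rcases lt_trichotomy (la p) (la q) with h3 | h3 | h3
              · have := hwm p h hp _ _ h3 (hla q h')
                omega
              · exact h3
              · have := hwm p h hp _ _ h3 (hla p h)
                omega
            have hje : gr p - 1 = gr q - 1 := by
              by_contra hne
              have h3 := hpu2 hne (la p)
              rw [hpu, ← hlae] at h3
              cases hb : pu (gr q - 1) (la p) <;> rw [hb] at h3 <;> exact absurd h3 (by decide)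
            rw [(p2 p h).1, (p2 q h').1, hje, hlae]
  · intro p q hp hpq hq hg
    have hq3 : 3 ≤ q := by omega
    have hp' : p < N4 Γ := by omega
    have h1 := (p5 p q hp hg).1 hpq
    apply hlt p q hp hq3 hp' hq
    rw [← hg]
    exact hwm p hp hp' _ _ h1 (hla q hq3)

end Pool.Agent.Helper54.S4
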